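import Pool.Agent.Helper97.FS.Stmts

set_option autoImplicit false

namespace Pool.Agent.Helper97.FS

open Finset MeasureTheory Filter Topology
open scoped ComplexConjugate
open Pool.Agent.Helper97.Sub

variable {d : ℕ}

theorem wlo_ab_append (U V : List (Fin d)) : ab (U ++ V) = ab U + ab V := by
  funext a
  simp [ab, List.count_append]

theorem wlo_ab_nil : ab ([] : List (Fin d)) = 0 := by
  funext a; simp [ab]

theorem wlo_len_add (L : Fin d → ℝ) (i j : Fin d → ℤ) : len L (i + j) = len L i + len L j := by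
  simp only [len, Pi.add_apply, Int.cast_add, mul_add, sum_add_distrib]

theorem wlo_len_zero (L : Fin d → ℝ) : len L 0 = 0 := by simp [len]

theorem wlo_len_single (L : Fin d → ℝ) (c : Fin d) : len L (ab [c]) = L c := by
  rw [len, Finset.sum_eq_single c]
  · simp [ab]
  · intro b _ hb
    have : List.count b [c] = 0 := by
      rw [List.count_eq_zero]
      simpa using hb
    simp [ab, this]
  · intro h; exact absurd (mem_univ _) h

theorem wlo_len_nonneg (L : Fin d → ℝ) (hL : ∀ a, 0 < L a) (V : List (Fin d)) :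
    0 ≤ len L (ab V) := by
  refine sum_nonneg fun a _ => mul_nonneg (hL a).le ?_
  simp [ab]

/-- length of a tile -/
theorem wlo_len_T {σ : Fin d → List (Fin d)} {M : Matrix (Fin d) (Fin d) ℤ} {θ : ℝ}
    {L f : Fin d → ℝ} (h : PFD σ M θ L f) (N : ℕ) (a : Fin d) :
    len L (ab (T σ N a)) = θ ^ N * L a := by
  have h1 : ∀ c, len L (ab (σ c)) = θ * L c := by
    intro c
    rw [← h.left c, len]
    refine sum_congr rfl fun b _ => ?_
    rw [ab, h.cntM]
  have h2 : ∀ V : List (Fin d), len L (ab (V.flatMap σ)) = θ * len L (ab V) := by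
    intro V
    induction V with
    | nil => rw [List.flatMap_nil, wlo_ab_nil, wlo_len_zero, mul_zero]
    | cons c V ih =>
      rw [List.flatMap_cons, wlo_ab_append, wlo_len_add, h1, ih,
        show c :: V = [c] ++ V from rfl, wlo_ab_append, wlo_len_add, wlo_len_single]
      ring
  induction N with
  | zero => rw [T_zero, wlo_len_single, pow_zero, one_mul]
  | succ N ih =>
    rw [T_add, show T σ 1 = σ from funext (T_one σ), h2, ih, pow_succ]
    ring

theorem wlo_length_lim {σ : Fin d → List (Fin d)} {M : Matrix (Fin d) (Fin d) ℤ} {θ : ℝ}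
    {L f : Fin d → ℝ} (h : PFD σ M θ L f) (a : Fin d) :
    Tendsto (fun N : ℕ => ((T σ N a).length : ℝ) / θ ^ N) atTop (𝓝 (L a)) := by
  have h1 : Tendsto (fun N : ℕ => ∑ b, (((M ^ N) b a : ℤ) : ℝ) / θ ^ N) atTop
      (𝓝 (∑ b, f b * L a)) := tendsto_finsetSum _ fun b _ => h.lim a b
  rw [← sum_mul, h.fsum, one_mul] at h1
  refine h1.congr fun N => ?_
  rw [← sum_div]
  congr 1
  have h2 := length_T h.cntM N a
  rw [ell] at h2
  have h3 : (((T σ N a).length : ℤ) : ℝ) = ((∑ b, (M ^ N) b a : ℤ) : ℝ) := by rw [h2]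
  push_cast at h3
  exact h3.symm

theorem wlo_chi_ab (y : Fin d → ℂ) (V : List (Fin d)) : chi y (ab V) = yw y V := by
  induction V with
  | nil => simp [chi, ab, yw]
  | cons c V ih =>
    have h1 : yw y (c :: V) = y c * yw y V := by simp [yw]
    rw [h1, ← ih, chi, chi, ← Finset.mul_prod_erase univ _ (mem_univ c),
      ← Finset.mul_prod_erase univ (fun a => y a ^ (ab V a)) (mem_univ c), ← mul_assoc]
    congr 1
    · simp only [ab, List.count_cons_self, zpow_natCast]
      rw [pow_succ]; ring
    · refine prod_congr rfl fun b hb => ?_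
      have : b ≠ c := (mem_erase.1 hb).1
      simp [ab, List.count_cons_of_ne this.symm]

theorem wlo_yw_norm (y : Fin d → ℂ) (hy : ∀ a, ‖y a‖ = 1) (V : List (Fin d)) :
    ‖yw y V‖ = 1 := by
  induction V with
  | nil => simp [yw]
  | cons c V ih =>
    have h1 : yw y (c :: V) = y c * yw y V := by simp [yw]
    rw [h1, norm_mul, hy, ih, one_mul]

theorem wlo_WS_step (y : Fin d → ℂ) (V : List (Fin d)) (c : Fin d) (u : ℕ) (hu : u < V.length) :
    WS y (Pi.single c 1) (V.take (u + 1)) = WS y (Pi.single c 1) (V.take u) + zz y V c u := by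
  have h1 : V.take (u + 1) = V.take u ++ [V[u]] := by
    rw [List.take_succ_eq_append_getElem hu]
  rw [h1, WS_append, zz, wlo_chi_ab, List.getElem?_eq_getElem hu]
  congr 1
  simp only [WS, mul_zero, add_zero, Option.some.injEq]
  by_cases h : V[u] = c
  · rw [if_pos h, h, Pi.single_eq_same, mul_one]
  · rw [if_neg h, Pi.single_eq_of_ne h, mul_zero]

theorem wlo_sum_zz (y : Fin d → ℂ) (V : List (Fin d)) (c : Fin d) (i i' : ℕ) (h : i ≤ i')
    (hi : i' ≤ V.length) :
    ∑ r ∈ Ico i i', zz y V c r = WS y (Pi.single c 1) (V.take i') -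
      WS y (Pi.single c 1) (V.take i) := by
  induction i', h using Nat.le_induction with
  | base => simp
  | succ n hn ih =>
    rw [sum_Ico_succ_top hn, ih (by omega), wlo_WS_step y V c n (by omega)]
    ring

theorem wlo_window (y : Fin d → ℂ) (hy : ∀ a, ‖y a‖ = 1) (V : List (Fin d)) (c : Fin d)
    (i i' : ℕ) (h : i ≤ i') (hi : i' ≤ V.length) :
    ‖∑ r ∈ Ico i i', zz y V c r‖ = ‖WS y (Pi.single c 1) ((V.drop i).take (i' - i))‖ := by
  have h1 : V.take i' = V.take i ++ (V.drop i).take (i' - i) := by
    rw [show i' = i + (i' - i) by omega, List.take_add]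
    congr 2
    omega
  rw [wlo_sum_zz y V c i i' h hi, h1, WS_append, add_sub_cancel_left, norm_mul,
    wlo_yw_norm y hy, one_mul]

theorem wlo_pos_step (L : Fin d → ℝ) (V : List (Fin d)) (u : ℕ) (hu : u < V.length) :
    pos L V (u + 1) = pos L V u + L V[u] := by
  rw [pos, pos, List.take_succ_eq_append_getElem hu, wlo_ab_append, wlo_len_add, wlo_len_single]

theorem wlo_len_window (L : Fin d → ℝ) (V : List (Fin d)) (i i' : ℕ) (h : i ≤ i') :
    len L (ab ((V.drop i).take (i' - i))) = pos L V i' - pos L V i := by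
  have h1 : V.take i' = V.take i ++ (V.drop i).take (i' - i) := by
    rw [show i' = i + (i' - i) by omega, List.take_add]
    congr 2
    omega
  rw [pos, pos, h1, wlo_ab_append, wlo_len_add]
  ring

theorem st_WLO (hrep : ST_WREP) (hww2 : ST_WW2) : ST_WLO := by
  intro d σ M θ L f gam hD
  have hP : PFD σ M θ L f := hD.toPFD
  have hLpos := hP.Lpos
  refine ⟨∑ a, L a, sum_nonneg fun a _ => (hLpos a).le, ?_⟩
  intro y hy t ρ ht hρ hV
  by_contra hcon
  push Not at hcon
  -- a letter
  have hne : Nonempty (Fin d) := by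
    by_contra hemp
    rw [not_nonempty_iff] at hemp
    have := hP.fsum
    simp at this
  obtain ⟨a⟩ := hne
  have hlim := (hrep d σ M θ L f gam hD y hy t ht).2 a
  have hlen := wlo_length_lim hP a
  have hθ := hP.one_lt
  have hθ0 : 0 < θ := by linarith
  -- the bound for the quadratic form
  have hq : ∀ N : ℕ, qf L y t (T σ N a) ≤ (θ ^ N * L a + t) * (ρ / 2) := by
    intro N
    set V := T σ N a with hVdef
    have h1 := hww2 d V.length (pos L V) (fun c i => zz y V c i) t (ρ * t / 4) ht ?_ ?_
    · have h2 : pos L V V.length - pos L V 0 = θ ^ N * L a := by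
        rw [pos, pos, List.take_length, List.take_zero, wlo_ab_nil, wlo_len_zero, hVdef,
          wlo_len_T hP, sub_zero]
      rw [h2] at h1
      have h3 : (t ^ 2 / 2) * qf L y t V ≤ t * (θ ^ N * L a + t) * (ρ * t / 4) := h1
      have h4 : t * (θ ^ N * L a + t) * (ρ * t / 4) =
          (t ^ 2 / 2) * ((θ ^ N * L a + t) * (ρ / 2)) := by ring
      rw [h4] at h3
      exact le_of_mul_le_mul_left h3 (by positivity)
    · intro i hi
      rw [wlo_pos_step L V i hi]
      have := hLpos V[i]
      linarith
    · intro i i' hii hi' hlt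
      rcases Nat.eq_or_lt_of_le hii with rfl | hlt'
      · simp only [Ico_self, sum_empty, norm_zero]
        have : (0 : ℝ) ≤ ρ * t / 4 := by positivity
        simpa using this
      · have h5 := hlt hlt'
        have h6 : pos L V i' = pos L V (i' - 1) + L V[i' - 1] := by
          have := wlo_pos_step L V (i' - 1) (by omega)
          rwa [show i' - 1 + 1 = i' by omega] at this
        have h7 : L V[i' - 1] ≤ ∑ a, L a :=
          single_le_sum (f := L) (fun a _ => (hLpos a).le) (mem_univ _)
        have h8 := hcon ((V.drop i).take (i' - i)) ⟨N, a, ?_⟩ ?_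
        · have h9 : ∑ c, ‖∑ r ∈ Ico i i', zz y V c r‖ ^ 2 =
              ∑ c, ‖WS y (Pi.single c 1) ((V.drop i).take (i' - i))‖ ^ 2 := by
            refine sum_congr rfl fun c _ => ?_
            rw [wlo_window y hy V c i i' hii hi']
          rw [h9]
          exact h8.le
        · rw [← hVdef]
          exact (List.take_prefix _ _).isInfix.trans (List.drop_suffix _ _).isInfix
        · rw [wlo_len_window L V i i' hii, h6]
          linarith
  -- the limit
  have hinf : Tendsto (fun N : ℕ => θ ^ N) atTop atTop := tendsto_pow_atTop_atTop_of_one_lt hθ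
  have hup : Tendsto (fun N : ℕ => (θ ^ N * L a + t) * (ρ / 2) / ((T σ N a).length : ℝ)) atTop
      (𝓝 ((L a + 0) * (ρ / 2) / L a)) := by
    have h1 : Tendsto (fun N : ℕ => (L a + t / θ ^ N) * (ρ / 2) /
        (((T σ N a).length : ℝ) / θ ^ N)) atTop (𝓝 ((L a + 0) * (ρ / 2) / L a)) := by
      refine Tendsto.div ?_ hlen (hLpos a).ne'
      refine Tendsto.mul_const _ ?_
      exact tendsto_const_nhds.add (tendsto_const_nhds.div_atTop hinf)
    refine h1.congr fun N => ?_
    have h2 : θ ^ N ≠ 0 := (pow_pos hθ0 N).ne'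
    rw [div_div_eq_mul_div]
    congr 1
    field_simp
  have hle : VV gam L y t ≤ (L a + 0) * (ρ / 2) / L a := by
    refine le_of_tendsto_of_tendsto' hlim hup fun N => ?_
    exact div_le_div_of_nonneg_right (hq N) (Nat.cast_nonneg _)
  have h10 : (L a + 0) * (ρ / 2) / L a = ρ / 2 := by
    have := (hLpos a).ne'
    rw [add_zero]
    field_simp
  rw [h10] at hle
  linarith

end Pool.Agent.Helper97.FS
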