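import Pool.Agent.Helper97.FS.Stmts

set_option autoImplicit false

namespace Pool.Agent.Helper97.FS

open Finset MeasureTheory Filter Topology Polynomial Matrix
open scoped ComplexConjugate
open Pool.Agent.Helper97.Sub

variable {d : ℕ}

/-- scalar step -/
theorem z4_scalar (r : ℝ) (hr : 0 < r) (l : ℂ) (hl : ‖l‖ ≠ r) (x : ℕ → ℂ) (C : ℝ)
    (hx : ∀ i, ‖x i‖ ≤ C)
    (h : Tendsto (fun i => (r : ℂ) * x (i + 1) - l * x i) atTop (𝓝 0)) :
    Tendsto x atTop (𝓝 0) := by
  have hb : IsBoundedUnder (· ≤ ·) atTop (fun i => ‖x i‖) :=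
    isBoundedUnder_of ⟨C, hx⟩
  have hb' : IsBoundedUnder (· ≥ ·) atTop (fun i => ‖x i‖) :=
    isBoundedUnder_of ⟨0, fun i => norm_nonneg _⟩
  set s := limsup (fun i => ‖x i‖) atTop with hs
  have hs0 : 0 ≤ s := by
    refine le_limsup_of_frequently_le ?_ hb
    exact Frequently.of_forall fun i => norm_nonneg _
  have key : ∀ ε : ℝ, 0 < ε → ∀ᶠ i in atTop, ‖x i‖ < s + ε := fun ε hε =>
    eventually_lt_of_limsup_lt (by linarith) hb
  have hv : ∀ ε : ℝ, 0 < ε → ∀ᶠ i in atTop, ‖(r : ℂ) * x (i + 1) - l * x i‖ < ε := by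
    intro ε hε
    have := (tendsto_zero_iff_norm_tendsto_zero.1 h).eventually (gt_mem_nhds hε)
    exact this
  have hs00 : s = 0 := by
    rcases lt_or_gt_of_ne hl with h1 | h1
    · -- ‖l‖ < r
      have h2 : ∀ ε : ℝ, 0 < ε → r * s ≤ ‖l‖ * (s + ε) + ε := by
        intro ε hε
        have h3 : ∀ᶠ i in atTop, ‖x (i + 1)‖ ≤ (‖l‖ * (s + ε) + ε) / r := by
          filter_upwards [key ε hε, hv ε hε] with i h4 h5
          rw [le_div_iff₀ hr]
          have h6 : ‖(r : ℂ) * x (i + 1)‖ ≤ ‖(r : ℂ) * x (i + 1) - l * x i‖ + ‖l * x i‖ := by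
            have := norm_sub_norm_le ((r : ℂ) * x (i + 1)) (l * x i)
            linarith
          rw [norm_mul, norm_mul, Complex.norm_real, Real.norm_eq_abs, abs_of_pos hr] at h6
          have h7 : ‖l‖ * ‖x i‖ ≤ ‖l‖ * (s + ε) := by gcongr
          nlinarith
        have h4 : ∀ᶠ i in atTop, ‖x i‖ ≤ (‖l‖ * (s + ε) + ε) / r := by
          rw [eventually_atTop] at h3 ⊢
          obtain ⟨N, hN⟩ := h3
          refine ⟨N + 1, fun i hi => ?_⟩
          have := hN (i - 1) (by omega)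
          rwa [show i - 1 + 1 = i by omega] at this
        have h5 : s ≤ (‖l‖ * (s + ε) + ε) / r := limsup_le_of_le hb'.isCoboundedUnder_flip h4
        rw [le_div_iff₀ hr] at h5
        linarith
      have h3 : r * s ≤ ‖l‖ * s := by
        refine le_of_forall_pos_le_add fun ε hε => ?_
        have h4 := h2 (ε / (‖l‖ + 1)) (by positivity)
        have h5 : ε / (‖l‖ + 1) * (‖l‖ + 1) = ε := by
          field_simp
        nlinarith
      nlinarith
    · have hl0 : 0 < ‖l‖ := hr.trans h1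
      have h2 : ∀ ε : ℝ, 0 < ε → ‖l‖ * s ≤ r * (s + ε) + ε := by
        intro ε hε
        have h3 : ∀ᶠ i in atTop, ‖x i‖ ≤ (r * (s + ε) + ε) / ‖l‖ := by
          have hk := (tendsto_add_atTop_nat 1).eventually (key ε hε)
          filter_upwards [hk, hv ε hε] with i h4 h5
          rw [le_div_iff₀ hl0]
          have h6 : ‖l * x i‖ ≤ ‖(r : ℂ) * x (i + 1) - l * x i‖ + ‖(r : ℂ) * x (i + 1)‖ := by
            have := norm_sub_norm_le (l * x i) ((r : ℂ) * x (i + 1))
            rw [norm_sub_rev] at this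
            linarith
          rw [norm_mul, norm_mul, Complex.norm_real, Real.norm_eq_abs, abs_of_pos hr] at h6
          have h7 : r * ‖x (i + 1)‖ ≤ r * (s + ε) := by gcongr
          nlinarith
        have h5 : s ≤ (r * (s + ε) + ε) / ‖l‖ := limsup_le_of_le hb'.isCoboundedUnder_flip h3
        rw [le_div_iff₀ hl0] at h5
        linarith
      have h3 : ‖l‖ * s ≤ r * s := by
        refine le_of_forall_pos_le_add fun ε hε => ?_
        have h4 := h2 (ε / (r + 1)) (by positivity)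
        have h5 : ε / (r + 1) * (r + 1) = ε := by
          field_simp
        nlinarith
      nlinarith
  rw [tendsto_zero_iff_norm_tendsto_zero]
  rw [Metric.tendsto_atTop]
  intro ε hε
  have := key ε hε
  rw [hs00, zero_add, eventually_atTop] at this
  obtain ⟨N, hN⟩ := this
  refine ⟨N, fun n hn => ?_⟩
  rw [Real.dist_eq, sub_zero, abs_norm]
  exact hN n hn

/-- operator step -/
theorem z4_op (B : Matrix (Fin d) (Fin d) ℂ) (r : ℝ) (hr : 0 < r) (s : Multiset ℂ) :
    (∀ l ∈ s, ‖l‖ ≠ r) → ∀ (W : Matrix (Fin d) (Fin d) ℂ),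
      aeval B ((s.map (fun l => X - C l)).prod) * W = 0 →
      (∃ K : ℝ, ∀ (i : ℕ) (b c), ‖(B ^ i * W) b c / (r : ℂ) ^ i‖ ≤ K) →
      ∀ b c, Tendsto (fun i : ℕ => (B ^ i * W) b c / (r : ℂ) ^ i) atTop (𝓝 0) := by
  induction s using Multiset.induction_on with
  | empty =>
    intro _ W hW _ b c
    have : W = 0 := by simpa using hW
    subst this
    simp
  | cons l s ih =>
    intro hs W hW hK b c
    obtain ⟨K, hK⟩ := hK
    have hr0 : (r : ℂ) ≠ 0 := by exact_mod_cast hr.ne'
    set W' := (B - (algebraMap ℂ (Matrix (Fin d) (Fin d) ℂ)) l) * W with hW'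
    have e1 : ∀ (i : ℕ) (b c), (B ^ i * W') b c / (r : ℂ) ^ i =
        (r : ℂ) * ((B ^ (i + 1) * W) b c / (r : ℂ) ^ (i + 1)) -
          l * ((B ^ i * W) b c / (r : ℂ) ^ i) := by
      intro i b c
      have h1 : B ^ i * W' = B ^ (i + 1) * W - l • (B ^ i * W) := by
        rw [hW', ← mul_assoc, mul_sub, ← pow_succ, sub_mul]
        congr 1
        rw [Algebra.algebraMap_eq_smul_one, mul_smul_comm, mul_one, smul_mul_assoc]
      rw [h1, Matrix.sub_apply, Matrix.smul_apply, smul_eq_mul]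
      have : (r : ℂ) ^ i ≠ 0 := pow_ne_zero _ hr0
      rw [pow_succ (r : ℂ)]
      field_simp
    have hbd : ∃ K' : ℝ, ∀ (i : ℕ) (b c), ‖(B ^ i * W') b c / (r : ℂ) ^ i‖ ≤ K' := by
      refine ⟨r * K + ‖l‖ * K, fun i b c => ?_⟩
      rw [e1]
      refine (norm_sub_le _ _).trans ?_
      rw [norm_mul, norm_mul, Complex.norm_real, Real.norm_eq_abs, abs_of_pos hr]
      gcongr
      · exact hK _ _ _
      · exact hK _ _ _
    have hker : aeval B ((s.map (fun l => X - C l)).prod) * W' = 0 := by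
      rw [Multiset.map_cons, Multiset.prod_cons, mul_comm, map_mul, mul_assoc] at hW
      rw [hW']
      simpa using hW
    have h2 := ih (fun l' hl' => hs l' (Multiset.mem_cons_of_mem hl')) W' hker hbd b c
    refine z4_scalar r hr l (hs l (Multiset.mem_cons_self _ _)) _ K (fun i => hK i b c) ?_
    refine h2.congr fun i => ?_
    exact e1 i b c

theorem z4_sqrt (θ : ℝ) (h : 0 ≤ θ) (i : ℕ) : Real.sqrt (θ ^ i) = Real.sqrt θ ^ i := by
  induction i with
  | zero => simp
  | succ n ih => rw [pow_succ, Real.sqrt_mul (pow_nonneg h n), ih, pow_succ]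

theorem st_Z4 : ST_Z4 := by
  intro d M θ CF cF hθ hcF hW
  have hθ0 : 0 ≤ θ := by linarith
  set r := Real.sqrt θ with hr
  have hr0 : 0 < r := Real.sqrt_pos.2 (by linarith)
  -- closed sets
  let f : ℕ → Fin d → Fin d → (Fin d → Fin d → ℂ) → ℝ := fun i b c W =>
    ‖∑ a, (((M ^ i) a b : ℤ) : ℂ) * W a c‖
  have hf : ∀ i b c, Continuous (f i b c) := by
    intro i b c
    refine continuous_norm.comp ?_
    refine continuous_finsetSum _ fun a _ => ?_
    exact continuous_const.mul ((continuous_apply c).comp (continuous_apply a))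
  let Kn : ℕ → Set (Fin d → Fin d → ℂ) := fun n =>
    {W | ∀ i ≤ n, (∀ b c, f i b c W ≤ 2 * CF * Real.sqrt (θ ^ i)) ∧
      ∃ b c, cF / 2 * Real.sqrt (θ ^ i) ≤ f i b c W}
  have hKc : ∀ n, IsClosed (Kn n) := by
    intro n
    have : Kn n = ⋂ i : ℕ, ⋂ _ : i ≤ n,
        ((⋂ b : Fin d, ⋂ c : Fin d, {W | f i b c W ≤ 2 * CF * Real.sqrt (θ ^ i)}) ∩
          ⋃ b : Fin d, ⋃ c : Fin d, {W | cF / 2 * Real.sqrt (θ ^ i) ≤ f i b c W}) := by
      ext W
      simp [Kn]
    rw [this]
    refine isClosed_iInter fun i => isClosed_iInter fun _ => IsClosed.inter ?_ ?_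
    · exact isClosed_iInter fun b => isClosed_iInter fun c =>
        isClosed_le (hf i b c) continuous_const
    · exact isClosed_iUnion_of_finite fun b => isClosed_iUnion_of_finite fun c =>
        isClosed_le continuous_const (hf i b c)
  have hK0 : Kn 0 ⊆ Set.univ.pi fun _ : Fin d => Set.univ.pi fun _ : Fin d =>
      Metric.closedBall (0 : ℂ) (2 * CF) := by
    intro W hW a _ c _
    have := (hW 0 le_rfl).1 a c
    simp only [f, pow_zero, Real.sqrt_one, mul_one] at this
    rw [mem_closedBall_zero_iff]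
    refine le_trans (le_of_eq ?_) this
    congr 1
    rw [Finset.sum_eq_single a]
    · simp
    · intro b _ hb
      rw [Matrix.one_apply_ne hb]; simp
    · intro h; exact absurd (mem_univ _) h
  have hKcomp : IsCompact (Kn 0) :=
    IsCompact.of_isClosed_subset (isCompact_univ_pi fun _ => isCompact_univ_pi fun _ =>
      isCompact_closedBall _ _) (hKc 0) hK0
  have hKne : ∀ n, (Kn n).Nonempty := fun n => hW n
  have hmono : ∀ n, Kn (n + 1) ⊆ Kn n := fun n W hW i hi => hW i (by omega)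
  obtain ⟨W, hWm⟩ := IsCompact.nonempty_iInter_of_sequence_nonempty_isCompact_isClosed Kn hmono
    hKne hKcomp hKc
  have hW1 : ∀ i, (∀ b c, f i b c W ≤ 2 * CF * Real.sqrt (θ ^ i)) ∧
      ∃ b c, cF / 2 * Real.sqrt (θ ^ i) ≤ f i b c W := fun i =>
    (Set.mem_iInter.1 hWm i) i le_rfl
  by_contra hcon
  push Not at hcon
  set A : Matrix (Fin d) (Fin d) ℂ := M.map (Int.cast : ℤ → ℂ) with hA
  set B : Matrix (Fin d) (Fin d) ℂ := Aᵀ with hB
  have hBp : ∀ (i : ℕ) (b c), (B ^ i * (Matrix.of W)) b c =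
      ∑ a, (((M ^ i) a b : ℤ) : ℂ) * W a c := by
    intro i b c
    have h1 : B ^ i = ((M ^ i).map (Int.cast : ℤ → ℂ))ᵀ := by
      rw [hB, ← Matrix.transpose_pow, hA]
      congr 1
      have := Matrix.map_pow M (Int.castRingHom ℂ) i
      exact this.symm
    rw [h1, Matrix.mul_apply]
    rfl
  have hroots : ∀ l ∈ B.charpoly.roots, ‖l‖ ≠ r := by
    intro l hl h
    rw [mem_roots (Matrix.charpoly_monic B).ne_zero, hB, Matrix.charpoly_transpose] at hl
    apply hcon l hl
    rw [h, hr, Real.sq_sqrt hθ0]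
  have hprod : (B.charpoly.roots.map (fun l => X - C l)).prod = B.charpoly := by
    have := (IsAlgClosed.splits B.charpoly).eq_prod_roots_of_monic (Matrix.charpoly_monic B)
    exact this.symm
  have hlim := z4_op B r hr0 B.charpoly.roots hroots (Matrix.of W)
    (by rw [hprod, Matrix.aeval_self_charpoly, zero_mul])
    ⟨2 * CF, fun i b c => by
      rw [hBp, norm_div, norm_pow, Complex.norm_real, Real.norm_eq_abs, abs_of_pos hr0,
        div_le_iff₀ (pow_pos hr0 i), hr, ← z4_sqrt θ hθ0]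
      exact (hW1 i).1 b c⟩
  have hev : ∀ᶠ i : ℕ in atTop, ∀ b c, ‖(B ^ i * (Matrix.of W)) b c / (r : ℂ) ^ i‖ < cF / 2 := by
    rw [eventually_all]
    intro b
    rw [eventually_all]
    intro c
    exact (tendsto_zero_iff_norm_tendsto_zero.1 (hlim b c)).eventually
      (gt_mem_nhds (by positivity))
  obtain ⟨i, hi⟩ := hev.exists
  obtain ⟨b, c, hbc⟩ := (hW1 i).2
  have h3 := hi b c
  rw [hBp, norm_div, norm_pow, Complex.norm_real, Real.norm_eq_abs, abs_of_pos hr0,
    div_lt_iff₀ (pow_pos hr0 i), hr, ← z4_sqrt θ hθ0] at h3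
  exact absurd h3 (not_lt.2 hbc)

end Pool.Agent.Helper97.FS
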